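import Pool.Agent.H84.TI.Stm

set_option autoImplicit false

open Finset

namespace Pool.Agent.H76.TI

open Pool.Agent.H84.TI

theorem fir : S_FIR := by
  intro M _ B u
  unfold G
  simp only [card_filter]
  rw [sum_comm]
  have h : ∀ i ∈ range u, ∑ z : ZMod M, (if z - (i : ZMod M) ∈ B then 1 else 0) = B.card := by
    intro i _
    rw [← Equiv.sum_comp (Equiv.addRight (i : ZMod M))]
    simp
  rw [sum_congr rfl h]
  simp [mul_comm]

theorem win : S_WIN := by
  intro M _ B z l u
  unfold G
  rw [← card_range u, ← card_product, card_range, ← card_sigma]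
  refine card_le_card_of_injOn
    (fun q : ℕ × ℕ => (⟨u + q.1 - q.2, q.2⟩ : (_ : ℕ) × ℕ)) ?_ ?_
  · rintro ⟨i, j⟩ hq
    simp only [coe_product, Set.mem_prod, mem_coe, mem_filter, mem_range] at hq
    simp only [coe_sigma, Set.mem_sigma_iff, mem_coe, mem_filter, mem_range]
    obtain ⟨⟨hi, hz⟩, hj⟩ := hq
    refine ⟨by omega, hj, ?_⟩
    rw [Nat.cast_sub (by omega)]
    push_cast
    have : z + (u : ZMod M) - ((u : ZMod M) + i - j) - j = z - i := by ring
    rw [this]
    exact hz
  · rintro ⟨i, j⟩ hq ⟨i', j'⟩ hq' h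
    simp only [coe_product, Set.mem_prod, mem_coe, mem_filter, mem_range] at hq hq'
    simp only [Sigma.mk.injEq, heq_eq_eq] at h
    obtain ⟨h1, h2⟩ := h
    ext
    · simp only
      omega
    · simpa using h2

end Pool.Agent.H76.TI
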